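import Mathlib

namespace Pool.Agent.Results.MP_b8a1e8_lc.LbCSGNotInLjMONG

open Relation

/-- A grammar `G = (V, T, P, S)` whose symbols come from the type `σ`: `V` is the finite total
alphabet, `T ⊆ V` the terminals (the nonterminals are `V \ T`), `S ∈ V \ T` the start symbol and
`P` a finite set of rules `x → y`, where `x, y` are words over `V` and `x` contains a
nonterminal. -/
structure Grammar (σ : Type*) where
  /-- total alphabet -/
  V : Finset σ
  /-- terminals -/
  T : Finset σ
  T_subset : T ⊆ V
  /-- start symbol -/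
  S : σ
  S_mem : S ∈ V
  S_not_mem : S ∉ T
  /-- rules, the pair `(x, y)` being the rule `x → y` -/
  P : Finset (List σ × List σ)
  P_wf : ∀ r ∈ P, (∀ c ∈ r.1, c ∈ V) ∧ (∀ c ∈ r.2, c ∈ V) ∧ ∃ A ∈ r.1, A ∉ T

variable {σ : Type*}

/-- `G` is monotonous: `|x| ≤ |y|` for every rule `x → y`. -/
def Grammar.IsMonotonous (G : Grammar σ) : Prop :=
  ∀ r ∈ G.P, r.1.length ≤ r.2.length

/-- `G` is context-sensitive: every rule is of the form `α A β → α γ β` with `A` a nonterminal and
`γ` nonempty. -/
def Grammar.IsContextSensitive (G : Grammar σ) : Prop :=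
  ∀ r ∈ G.P, ∃ (α β γ : List σ) (A : σ), A ∈ G.V ∧ A ∉ G.T ∧ γ ≠ [] ∧
    r = (α ++ [A] ++ β, α ++ γ ++ β)

/-- The jumping step: `u x v` yields `u' y v'` whenever `x → y` is a rule and `u v = u' v'`. -/
def Grammar.JumpStep (G : Grammar σ) (w w' : List σ) : Prop :=
  ∃ x y u v u' v' : List σ, (x, y) ∈ G.P ∧ u ++ v = u' ++ v' ∧
    w = u ++ x ++ v ∧ w' = u' ++ y ++ v'

/-- The context-preserving jumping step: `u α A β v` yields `u' α γ β v'` whenever
`α A β → α γ β` is a rule (`A` a nonterminal, `γ` nonempty) and `u α β v = u' α β v'`. -/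
def Grammar.ContextStep (G : Grammar σ) (w w' : List σ) : Prop :=
  ∃ (α β γ u v u' v' : List σ) (A : σ), A ∈ G.V ∧ A ∉ G.T ∧ γ ≠ [] ∧
    (α ++ [A] ++ β, α ++ γ ++ β) ∈ G.P ∧
    u ++ α ++ β ++ v = u' ++ α ++ β ++ v' ∧
    w = u ++ α ++ [A] ++ β ++ v ∧ w' = u' ++ α ++ γ ++ β ++ v'

/-- `L(G, ρ)`: the terminal words derivable from the start symbol by the reflexive-transitive
closure of `ρ`. -/
def Grammar.language (G : Grammar σ) (ρ : List σ → List σ → Prop) : Set (List σ) :=
  {w | (∀ c ∈ w, c ∈ G.T) ∧ ReflTransGen ρ [G.S] w}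

/-- The family of languages of context-sensitive grammars under the context-preserving jumping
step. -/
def LbCSG (σ : Type*) : Set (Set (List σ)) :=
  {L | ∃ G : Grammar σ, G.IsContextSensitive ∧ L = G.language G.ContextStep}

/-- The family of languages of monotonous grammars under the jumping step. -/
def LjMONG (σ : Type*) : Set (Set (List σ)) :=
  {L | ∃ G : Grammar σ, G.IsMonotonous ∧ L = G.language G.JumpStep}

/-! ### Words `a ^ n b ^ n` -/

/-- the word `a ^ n b ^ n` -/
def ab (a b : σ) (n : ℕ) : List σ := List.replicate n a ++ List.replicate n b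

lemma ab_length (a b : σ) (n : ℕ) : (ab a b n).length = 2 * n := by
  simp [ab]; ring

lemma ab_mem {a b : σ} {n : ℕ} {c : σ} (h : c ∈ ab a b n) : c = a ∨ c = b := by
  simp only [ab, List.mem_append, List.mem_replicate] at h
  tauto

/-- If `x` occurs in `l₂ x r₂` only once, then this occurrence splits the word uniquely. -/
lemma split_unique {x : σ} {l₁ l₂ r₁ r₂ : List σ} (h2 : x ∉ l₂) (h4 : x ∉ r₂)
    (h : l₁ ++ x :: r₁ = l₂ ++ x :: r₂) : l₁ = l₂ ∧ r₁ = r₂ := by
  induction l₁ generalizing l₂ with
  | nil =>
    cases l₂ with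
    | nil => simpa using h
    | cons y l₂ =>
      simp only [List.nil_append, List.cons_append, List.cons.injEq] at h
      exact absurd (List.mem_cons.2 (Or.inl h.1)) h2
  | cons y l₁ ih =>
    cases l₂ with
    | nil =>
      simp only [List.nil_append, List.cons_append, List.cons.injEq] at h
      exact absurd (by rw [← h.2]; simp) h4
    | cons z l₂ =>
      simp only [List.cons_append, List.cons.injEq] at h
      obtain ⟨hyz, h⟩ := h
      have := ih (l₂ := l₂) (fun hx => h2 (List.mem_cons_of_mem _ hx)) h
      exact ⟨by rw [hyz, this.1], this.2⟩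

/-- The only factor `ab` of `a ^ n b ^ m` is at the border. -/
lemma ab_split {a b : σ} (hab : a ≠ b) {n m : ℕ} {u v : List σ}
    (h : u ++ a :: b :: v = List.replicate (n + 1) a ++ List.replicate (m + 1) b) :
    u = List.replicate n a ∧ v = List.replicate m b := by
  induction n generalizing u with
  | zero =>
    cases u with
    | nil =>
      simp only [List.nil_append, zero_add, List.cons_append,
        List.replicate_succ, List.replicate_zero, List.cons.injEq, true_and] at h
      exact ⟨by simp, h⟩
    | cons y u =>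
      simp only [zero_add, List.replicate_one, List.cons_append, List.nil_append,
        List.cons.injEq] at h
      have : a ∈ List.replicate (m + 1) b := by
        rw [← h.2]; simp
      exact absurd (List.eq_of_mem_replicate this) hab
  | succ n ih =>
    cases u with
    | nil =>
      rw [List.replicate_succ, List.replicate_succ] at h
      simp only [List.nil_append, List.cons_append, List.cons.injEq, true_and] at h
      exact absurd h.1.symm hab
    | cons y u =>
      rw [List.replicate_succ] at h
      simp only [List.cons_append, List.cons.injEq] at h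
      have := ih h.2
      refine ⟨?_, this.2⟩
      rw [List.replicate_succ, h.1, ← this.1]

/-! ### No monotonous jumping grammar generates `a ^ n b ^ n` -/

/-- A bound for the lengths of the right-hand sides. -/
lemma exists_bound (G : Grammar σ) : ∃ M : ℕ, ∀ r ∈ G.P, r.2.length ≤ M :=
  ⟨G.P.sup fun r => r.2.length, fun _ hr => Finset.le_sup (f := fun r => r.2.length) hr⟩

lemma no_mong {a b : σ} (hab : a ≠ b) (H : Grammar σ) (hH : H.IsMonotonous)
    (h1 : ∀ w ∈ H.language H.JumpStep, ∃ n, w = ab a b n)
    (h2 : ∀ n, 1 ≤ n → ab a b n ∈ H.language H.JumpStep) : False := by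
  obtain ⟨M, hM⟩ := exists_bound H
  have hmem := h2 (M + 1) (by omega)
  obtain ⟨hT, hder⟩ := hmem
  rcases ReflTransGen.cases_tail hder with heq | ⟨w₀, hw₀, hstep⟩
  · -- the start symbol is not terminal
    apply H.S_not_mem
    apply hT
    rw [heq]
    simp
  · obtain ⟨x, y, u, v, u', v', hP, huv, hw, hw'⟩ := hstep
    have hlen := hH _ hP
    obtain ⟨-, -, A, hAx, -⟩ := H.P_wf _ hP
    have hx : 1 ≤ x.length := List.length_pos_of_mem hAx
    have hy : 1 ≤ y.length := le_trans hx hlen
    have hyM : y.length ≤ M := hM _ hP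
    have hTy : ∀ c ∈ y, c ∈ H.T := fun c hc => hT c (by rw [hw']; simp [hc])
    have hTu : ∀ c ∈ u' ++ v', c ∈ H.T := fun c hc => hT c (by
      rw [hw']; simp only [List.mem_append] at hc ⊢; tauto)
    -- insert `y` at the front
    have hf : y ++ (u' ++ v') ∈ H.language H.JumpStep := by
      refine ⟨fun c hc => ?_, hw₀.tail ⟨x, y, u, v, [], u' ++ v', hP, by simp [huv], hw, by simp⟩⟩
      rcases List.mem_append.1 hc with h | h
      · exact hTy c h
      · exact hTu c h
    -- insert `y` at the end
    have he : (u' ++ v') ++ y ∈ H.language H.JumpStep := by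
      refine ⟨fun c hc => ?_, hw₀.tail ⟨x, y, u, v, u' ++ v', [], hP, by simp [huv], hw, by simp⟩⟩
      rcases List.mem_append.1 hc with h | h
      · exact hTu c h
      · exact hTy c h
    have hl : y.length + (u' ++ v').length = 2 * (M + 1) := by
      have := congrArg List.length hw'
      rw [ab_length] at this
      simp only [List.length_append] at this ⊢
      omega
    obtain ⟨n, hn⟩ := h1 _ hf
    obtain ⟨m, hm⟩ := h1 _ he
    have hn' : n = M + 1 := by
      have := congrArg List.length hn
      rw [ab_length, List.length_append] at this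
      omega
    have hm' : m = M + 1 := by
      have := congrArg List.length hm
      rw [ab_length, List.length_append] at this
      omega
    subst hn'
    subst hm'
    -- all letters of `y` are `a`
    obtain ⟨c, hc⟩ : ∃ c, c ∈ y := List.exists_mem_of_length_pos hy
    have hca : c = a := by
      have hpre : y = List.replicate y.length a := by
        have h := congrArg (List.take y.length) hn
        rw [List.take_left, ab, List.take_append_of_le_length (by simp; omega),
          List.take_replicate, min_eq_left (by omega)] at h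
        exact h
      rw [hpre] at hc
      exact List.eq_of_mem_replicate hc
    have hcb : c = b := by
      have hsuf : y = List.replicate y.length b := by
        have h := congrArg (List.drop (u' ++ v').length) hm
        have hk : (u' ++ v').length = (List.replicate (M + 1) a).length + (M + 1 - y.length) := by
          rw [List.length_replicate]; omega
        rw [List.drop_left, ab, hk, List.drop_append, List.drop_eq_nil_of_le (by simp),
          List.nil_append, List.drop_replicate] at h
        have e : M + 1 - ((List.replicate (M + 1) a).length + (M + 1 - y.length) -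
            (List.replicate (M + 1) a).length) = y.length := by
          rw [List.length_replicate]; omega
        rw [e] at h
        exact h
      rw [hsuf] at hc
      exact List.eq_of_mem_replicate hc
    exact hab (hca.symm.trans hcb)

/-! ### A context-sensitive grammar for `a ^ n b ^ n` -/

section CSG

variable [DecidableEq σ]

/-- The grammar with rules `S → ab`, `S → aAb`, `aAb → aaAbb`, `aAb → aabb`. -/
def G₀ (a b S A : σ) (hSa : S ≠ a) (hSb : S ≠ b) (hAa : A ≠ a) (hAb : A ≠ b) : Grammar σ where
  V := {a, b, S, A}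
  T := {a, b}
  T_subset := by intro x; simp only [Finset.mem_insert, Finset.mem_singleton]; tauto
  S := S
  S_mem := by simp
  S_not_mem := by simp [hSa, hSb]
  P := {([S], [a, b]), ([S], [a, A, b]), ([a, A, b], [a, a, A, b, b]), ([a, A, b], [a, a, b, b])}
  P_wf := by
    intro r hr
    simp only [Finset.mem_insert, Finset.mem_singleton] at hr
    rcases hr with rfl | rfl | rfl | rfl <;>
    refine ⟨by simp, by simp, ?_⟩
    · exact ⟨S, by simp, by simp [hSa, hSb]⟩
    · exact ⟨S, by simp, by simp [hSa, hSb]⟩
    · exact ⟨A, by simp, by simp [hAa, hAb]⟩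
    · exact ⟨A, by simp, by simp [hAa, hAb]⟩

variable {a b S A : σ} (hSa : S ≠ a) (hSb : S ≠ b) (hAa : A ≠ a) (hAb : A ≠ b)

lemma G₀_cs : (G₀ a b S A hSa hSb hAa hAb).IsContextSensitive := by
  intro r hr
  simp only [G₀, Finset.mem_insert, Finset.mem_singleton] at hr
  rcases hr with rfl | rfl | rfl | rfl
  · exact ⟨[], [], [a, b], S, by simp [G₀], by simp [G₀, hSa, hSb], by simp, by simp⟩
  · exact ⟨[], [], [a, A, b], S, by simp [G₀], by simp [G₀, hSa, hSb], by simp, by simp⟩
  · exact ⟨[a], [b], [a, A, b], A, by simp [G₀], by simp [G₀, hAa, hAb], by simp, by simp⟩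
  · exact ⟨[a], [b], [a, b], A, by simp [G₀], by simp [G₀, hAa, hAb], by simp, by simp⟩

/-- Sentential forms of `G₀`. -/
def Good (a b S A : σ) (w : List σ) : Prop :=
  w = [S] ∨ (∃ n, w = List.replicate (n + 1) a ++ A :: List.replicate (n + 1) b) ∨
    ∃ n, w = ab a b (n + 1)

include hSa hSb hAa hAb in
/-- The rules of `G₀` in the form used by the context-preserving step. -/
lemma rule_cases {α β γ : List σ} {B : σ} (hBT : B ∉ (G₀ a b S A hSa hSb hAa hAb).T)
    (hP : (α ++ [B] ++ β, α ++ γ ++ β) ∈ (G₀ a b S A hSa hSb hAa hAb).P) :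
    (B = S ∧ α = [] ∧ β = [] ∧ (γ = [a, b] ∨ γ = [a, A, b])) ∨
    (B = A ∧ α = [a] ∧ β = [b] ∧ (γ = [a, A, b] ∨ γ = [a, b])) := by
  have hBa : B ≠ a := by rintro rfl; exact hBT (by simp [G₀])
  have hBb : B ≠ b := by rintro rfl; exact hBT (by simp [G₀])
  simp only [G₀, Finset.mem_insert, Finset.mem_singleton, Prod.mk.injEq] at hP
  have key1 : α ++ [B] ++ β = [S] → B = S ∧ α = [] ∧ β = [] := by
    intro h
    rcases α with _ | ⟨x, α⟩
    · simp at h
      exact ⟨h.1, rfl, h.2⟩
    · simp at h
  have key2 : α ++ [B] ++ β = [a, A, b] → B = A ∧ α = [a] ∧ β = [b] := by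
    intro h
    rcases α with _ | ⟨x, _ | ⟨y, _ | ⟨z, α⟩⟩⟩
    · simp at h
      exact absurd h.1 hBa
    · simp at h
      exact ⟨h.2.1, by rw [h.1], h.2.2⟩
    · simp at h
      exact absurd h.2.2.1 hBb
    · simp at h
  rcases hP with ⟨h1, h2⟩ | ⟨h1, h2⟩ | ⟨h1, h2⟩ | ⟨h1, h2⟩
  · obtain ⟨rfl, rfl, rfl⟩ := key1 h1
    left; refine ⟨rfl, rfl, rfl, Or.inl ?_⟩
    simpa using h2
  · obtain ⟨rfl, rfl, rfl⟩ := key1 h1
    left; refine ⟨rfl, rfl, rfl, Or.inr ?_⟩
    simpa using h2
  · obtain ⟨rfl, rfl, rfl⟩ := key2 h1
    right; refine ⟨rfl, rfl, rfl, Or.inl ?_⟩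
    have : γ ++ [b] = [a, B, b] ++ [b] := by simpa using h2
    exact List.append_cancel_right this
  · obtain ⟨rfl, rfl, rfl⟩ := key2 h1
    right; refine ⟨rfl, rfl, rfl, Or.inr ?_⟩
    have : γ ++ [b] = [a, b] ++ [b] := by simpa using h2
    exact List.append_cancel_right this

include hSa hSb hAa hAb in
lemma good_step (hab : a ≠ b) (hSA : S ≠ A) {w w' : List σ} (hw : Good a b S A w)
    (h : (G₀ a b S A hSa hSb hAa hAb).ContextStep w w') : Good a b S A w' := by
  obtain ⟨α, β, γ, u, v, u', v', B, -, hBT, -, hP, huv, hw1, hw'⟩ := h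
  have hBa : B ≠ a := by rintro rfl; exact hBT (by simp [G₀])
  have hBb : B ≠ b := by rintro rfl; exact hBT (by simp [G₀])
  have hBw : B ∈ w := by rw [hw1]; simp
  rcases rule_cases hSa hSb hAa hAb hBT hP with ⟨rfl, rfl, rfl, hγ⟩ | ⟨rfl, rfl, rfl, hγ⟩
  · -- a rule with left-hand side `S`
    rcases hw with rfl | ⟨n, rfl⟩ | ⟨n, rfl⟩
    · have h0 : u = [] ∧ v = [] := by
        rcases u with _ | ⟨x, u⟩
        · simpa using hw1
        · simp at hw1
      obtain ⟨rfl, rfl⟩ := h0
      simp only [List.append_nil] at huv
      have h0' := List.append_eq_nil_iff.1 huv.symm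
      obtain ⟨rfl, rfl⟩ := h0'
      rcases hγ with rfl | rfl
      · right; right
        exact ⟨0, by simp [hw', ab]⟩
      · right; left
        exact ⟨0, by simp [hw']⟩
    · exfalso
      simp only [List.mem_append, List.mem_replicate, List.mem_cons] at hBw
      tauto
    · exfalso
      rcases ab_mem hBw with h | h
      · exact hBa h
      · exact hBb h
  · -- a rule with left-hand side `a A b`
    rcases hw with rfl | ⟨n, rfl⟩ | ⟨n, rfl⟩
    · exfalso
      simp only [List.mem_singleton] at hBw
      exact hSA hBw.symm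
    · have h1 : (u ++ [a]) ++ B :: ([b] ++ v) =
          List.replicate (n + 1) a ++ B :: List.replicate (n + 1) b := by
        rw [hw1]; simp
      obtain ⟨h2, h3⟩ := split_unique (by simp [List.mem_replicate, hBa])
        (by simp [List.mem_replicate, hBb]) h1
      have huv' : u' ++ a :: b :: v' = List.replicate (n + 1) a ++ List.replicate (n + 1) b := by
        rw [← h2, ← h3]
        simpa using huv.symm
      obtain ⟨rfl, rfl⟩ := ab_split hab huv'
      have e1 : List.replicate n a ++ [a] = List.replicate (n + 1) a :=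
        List.replicate_succ'.symm
      rcases hγ with rfl | rfl
      · right; left
        refine ⟨n + 1, ?_⟩
        rw [hw', e1]
        rw [List.replicate_succ' (n := n + 1), List.replicate_succ (n := n + 1) (a := b),
          List.replicate_succ (n := n) (a := b)]
        simp
      · right; right
        refine ⟨n + 1, ?_⟩
        rw [hw', e1, ab]
        rw [List.replicate_succ' (n := n + 1), List.replicate_succ (n := n + 1) (a := b),
          List.replicate_succ (n := n) (a := b)]
        simp
    · exfalso
      rcases ab_mem hBw with h | h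
      · exact hBa h
      · exact hBb h

include hSa hSb hAa hAb in
lemma good_of_reach (hab : a ≠ b) (hSA : S ≠ A) {w : List σ}
    (h : ReflTransGen (G₀ a b S A hSa hSb hAa hAb).ContextStep [S] w) : Good a b S A w := by
  induction h with
  | refl => exact Or.inl rfl
  | tail _ hstep ih => exact good_step hSa hSb hAa hAb hab hSA ih hstep

include hSa hSb hAa hAb in
lemma reach_mid (n : ℕ) : ReflTransGen (G₀ a b S A hSa hSb hAa hAb).ContextStep [S]
    (List.replicate (n + 1) a ++ A :: List.replicate (n + 1) b) := by
  induction n with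
  | zero =>
    refine ReflTransGen.single ⟨[], [], [a, A, b], [], [], [], [], S, by simp [G₀],
      by simp [G₀, hSa, hSb], by simp, by simp [G₀], by simp, by simp, by simp⟩
  | succ n ih =>
    refine ih.tail ⟨[a], [b], [a, A, b], List.replicate n a, List.replicate n b,
      List.replicate n a, List.replicate n b, A, by simp [G₀],
      by simp [G₀, hAa, hAb], by simp, by simp [G₀], rfl, ?_, ?_⟩
    · rw [List.replicate_succ' (n := n) (a := a), List.replicate_succ (n := n) (a := b)]
      simp
    · rw [List.replicate_succ' (n := n + 1), List.replicate_succ (n := n + 1) (a := b),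
        List.replicate_succ' (n := n), List.replicate_succ (n := n) (a := b)]
      simp

include hSa hSb hAa hAb in
lemma reach_ab (n : ℕ) : ReflTransGen (G₀ a b S A hSa hSb hAa hAb).ContextStep [S]
    (ab a b (n + 1)) := by
  cases n with
  | zero =>
    refine ReflTransGen.single ⟨[], [], [a, b], [], [], [], [], S, by simp [G₀],
      by simp [G₀, hSa, hSb], by simp, by simp [G₀], by simp, by simp, by simp [ab]⟩
  | succ n =>
    refine (reach_mid hSa hSb hAa hAb n).tail ⟨[a], [b], [a, b], List.replicate n a,
      List.replicate n b, List.replicate n a, List.replicate n b, A, by simp [G₀],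
      by simp [G₀, hAa, hAb], by simp, by simp [G₀], rfl, ?_, ?_⟩
    · rw [List.replicate_succ' (n := n) (a := a), List.replicate_succ (n := n) (a := b)]
      simp
    · rw [ab, List.replicate_succ' (n := n + 1), List.replicate_succ (n := n + 1) (a := b),
        List.replicate_succ' (n := n), List.replicate_succ (n := n) (a := b)]
      simp

end CSG

/-- The family of languages of context-sensitive grammars with the context-preserving jumping
step is not contained in the family of languages of monotonous grammars with the jumping step. -/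
theorem result (σ : Type*) [Infinite σ] : ¬ (LbCSG σ ⊆ LjMONG σ) := by
  classical
  intro hsub
  have hinj : Function.Injective (Infinite.natEmbedding σ) := (Infinite.natEmbedding σ).injective
  set f := Infinite.natEmbedding σ with hf
  have hne : ∀ i j : ℕ, i ≠ j → f i ≠ f j := fun i j hij h => hij (hinj h)
  have hab := hne 0 1 (by norm_num)
  have hSa := hne 2 0 (by norm_num)
  have hSb := hne 2 1 (by norm_num)
  have hAa := hne 3 0 (by norm_num)
  have hAb := hne 3 1 (by norm_num)
  have hSA := hne 2 3 (by norm_num)
  have hmem : (G₀ (f 0) (f 1) (f 2) (f 3) hSa hSb hAa hAb).language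
      (G₀ (f 0) (f 1) (f 2) (f 3) hSa hSb hAa hAb).ContextStep ∈ LbCSG σ :=
    ⟨_, G₀_cs hSa hSb hAa hAb, rfl⟩
  obtain ⟨H, hH, hL⟩ := hsub hmem
  refine no_mong hab H hH ?_ ?_
  · intro w hw
    rw [← hL] at hw
    obtain ⟨hT, hder⟩ := hw
    rcases good_of_reach hSa hSb hAa hAb hab hSA hder with rfl | ⟨n, rfl⟩ | ⟨n, rfl⟩
    · have h := hT (f 2) (by simp)
      simp only [G₀, Finset.mem_insert, Finset.mem_singleton] at h
      tauto
    · have h := hT (f 3) (by simp)
      simp only [G₀, Finset.mem_insert, Finset.mem_singleton] at h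
      tauto
    · exact ⟨_, rfl⟩
  · intro n hn
    obtain ⟨k, rfl⟩ : ∃ k, n = k + 1 := ⟨n - 1, by omega⟩
    rw [← hL]
    refine ⟨fun c hc => ?_, reach_ab hSa hSb hAa hAb k⟩
    rcases ab_mem hc with rfl | rfl <;> simp [G₀]

end Pool.Agent.Results.MP_b8a1e8_lc.LbCSGNotInLjMONG
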